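import Mathlib
import Pool.Agent.W852.FG.Stms

/-!
# Two elementary pointwise inequalities
-/

namespace FrogGW.W578

open MeasureTheory ProbabilityTheory Filter Topology
open scoped ENNReal NNReal Classical

/-- power mean inequality -/
theorem pm (P k : ℕ) (lam : ℝ) (a : ℕ → ℝ) (hP : 1 ≤ P) (hl : 0 ≤ lam) (s : Finset ℕ)
    (hs : s.card ≤ k) (ha : ∀ i ∈ s, 0 ≤ a i) :
    (lam + ∑ i ∈ s, a i) ^ P ≤ ((k : ℝ) + 1) ^ (P - 1) * (lam ^ P + ∑ i ∈ s, a i ^ P) := by
  obtain ⟨n, rfl⟩ : ∃ n, P = n + 1 := ⟨P - 1, by omega⟩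
  have h := pow_sum_div_card_le_sum_pow (s := (Finset.insertNone s : Finset (Option ℕ)))
    (f := fun o => o.elim lam a) (n := n)
    (by
      intro o ho
      cases o with
      | none => exact hl
      | some i =>
        rw [Finset.some_mem_insertNone] at ho
        exact ha i ho)
  rw [Finset.sum_insertNone, Finset.sum_insertNone, Finset.card_insertNone] at h
  simp only [Option.elim_none, Option.elim_some] at h
  have hc : (0 : ℝ) < ((s.card + 1 : ℕ) : ℝ) ^ n := by positivity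
  rw [div_le_iff₀ hc] at h
  refine h.trans ?_
  rw [mul_comm, Nat.add_sub_cancel]
  have h1 : ((s.card + 1 : ℕ) : ℝ) ^ n ≤ ((k : ℝ) + 1) ^ n := by
    push_cast
    have : (s.card : ℝ) ≤ k := by exact_mod_cast hs
    gcongr
  have h2 : 0 ≤ lam ^ (n + 1) + ∑ i ∈ s, a i ^ (n + 1) :=
    add_nonneg (by positivity) (Finset.sum_nonneg fun i hi => pow_nonneg (ha i hi) _)
  exact mul_le_mul_of_nonneg_right h1 h2

/-- Pointwise inequality for many children. -/
theorem ptB : TaskPtB := by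
  intro P k hP γ lam a w hγ hl ha hw
  have hS : 0 ≤ ∑ i ∈ Finset.range k, w i := Finset.sum_nonneg fun i _ => hw i
  have hD : 0 < 1 + γ * ∑ i ∈ Finset.range k, w i := by positivity
  have h1 := pm P k lam a hP hl (Finset.range k) (by simp) (fun i _ => ha i)
  rw [div_eq_mul_inv, mul_pow]
  have hDi : 0 ≤ ((1 + γ * ∑ i ∈ Finset.range k, w i)⁻¹) ^ P := by positivity
  refine (mul_le_mul_of_nonneg_right h1 hDi).trans ?_
  rw [mul_assoc]
  refine mul_le_mul_of_nonneg_left ?_ (by positivity)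
  rw [add_mul, Finset.sum_mul]
  refine add_le_add le_rfl (Finset.sum_le_sum fun i _ => ?_)
  refine mul_le_mul_of_nonneg_left ?_ (pow_nonneg (ha i) _)
  have h2 : ∑ j ∈ (Finset.range k).erase i, w j ≤ ∑ j ∈ Finset.range k, w j :=
    Finset.sum_le_sum_of_subset_of_nonneg (Finset.erase_subset _ _) fun j _ _ => hw j
  have h3 : 0 ≤ ∑ j ∈ (Finset.range k).erase i, w j := Finset.sum_nonneg fun i _ => hw i
  have h4 : 0 < 1 + γ * ∑ j ∈ (Finset.range k).erase i, w j := by positivity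
  have h5 : (1 + γ * ∑ i ∈ Finset.range k, w i)⁻¹ ≤
      (1 + γ * ∑ j ∈ (Finset.range k).erase i, w j)⁻¹ := by
    apply inv_anti₀ h4
    gcongr
  exact pow_le_pow_left₀ (by positivity) h5 _

/-- `(x+y)^n ≤ (1+δ) x^n + C y^n` -/
theorem two (n : ℕ) (δ : ℝ) (hδ : 0 < δ) : ∃ C : ℝ, 0 < C ∧ ∀ x y : ℝ, 0 ≤ x → 0 ≤ y →
    (x + y) ^ n ≤ (1 + δ) * x ^ n + C * y ^ n := by
  obtain ⟨η, hη0, hη⟩ : ∃ η : ℝ, 0 < η ∧ (1 + η) ^ n ≤ 1 + δ := by
    have h1 : Tendsto (fun η : ℝ => (1 + η) ^ n) (𝓝[>] 0) (𝓝 1) := by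
      have : Continuous (fun η : ℝ => (1 + η) ^ n) := by fun_prop
      have h2 := this.tendsto 0
      simp only [add_zero, one_pow] at h2
      exact h2.mono_left nhdsWithin_le_nhds
    have h3 := (h1.eventually (gt_mem_nhds (by linarith : (1 : ℝ) < 1 + δ))).and
      self_mem_nhdsWithin
    obtain ⟨η, h4, h5⟩ := h3.exists
    exact ⟨η, h5, h4.le⟩
  refine ⟨(1 + 1 / η) ^ n, by positivity, fun x y hx hy => ?_⟩
  rcases le_total y (η * x) with h | h
  · calc (x + y) ^ n ≤ (x + η * x) ^ n := by gcongr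
      _ = (1 + η) ^ n * x ^ n := by rw [← mul_pow]; ring
      _ ≤ (1 + δ) * x ^ n := by gcongr
      _ ≤ _ := by
        have : 0 ≤ (1 + 1 / η) ^ n * y ^ n := by positivity
        linarith
  · have h1 : x ≤ 1 / η * y := by
      rw [one_div, inv_mul_eq_div, le_div_iff₀ hη0]
      linarith
    calc (x + y) ^ n ≤ (1 / η * y + y) ^ n := by gcongr
      _ = (1 + 1 / η) ^ n * y ^ n := by rw [← mul_pow]; ring
      _ ≤ _ := by
        have : 0 ≤ (1 + δ) * x ^ n := by positivity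
        linarith

/-- Pointwise inequality for few children. -/
theorem ptA : TaskPtA := by
  intro r k hr δ hδ
  obtain ⟨C1, hC1, h2⟩ := two (2 * r) δ hδ
  refine ⟨C1 * ((k : ℝ) + 1) ^ (2 * r - 1) + 1, by positivity, ?_⟩
  intro γ lam a w hγ hl ha hw
  have hS : 0 ≤ ∑ i ∈ Finset.range k, w i := Finset.sum_nonneg fun i _ => hw i
  have hD : 1 ≤ 1 + γ * ∑ i ∈ Finset.range k, w i := by
    have : 0 ≤ γ * ∑ i ∈ Finset.range k, w i := by positivity
    linarith
  have hdbl : 0 ≤ ∑ i ∈ Finset.range k, ∑ j ∈ (Finset.range k).erase i, a i ^ r * a j ^ r :=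
    Finset.sum_nonneg fun i _ => Finset.sum_nonneg fun j _ =>
      mul_nonneg (pow_nonneg (ha i) _) (pow_nonneg (ha j) _)
  have hterm : ∀ i, 0 ≤ a i ^ (2 * r) *
      ((1 + γ * ∑ j ∈ (Finset.range k).erase i, w j)⁻¹) ^ (2 * r) := by
    intro i
    have h3 : 0 ≤ ∑ j ∈ (Finset.range k).erase i, w j := Finset.sum_nonneg fun i _ => hw i
    have := ha i
    positivity
  rcases Nat.eq_zero_or_pos k with hk | hk
  · subst hk
    simp only [Finset.range_zero, Finset.sum_empty, add_zero, mul_zero, div_one]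
    have h3 : 0 ≤ lam ^ (2 * r) := by positivity
    have h4 : 0 ≤ C1 * (((0 : ℕ) : ℝ) + 1) ^ (2 * r - 1) := by positivity
    nlinarith
  · obtain ⟨i0, hi0, hmax⟩ := Finset.exists_max_image (Finset.range k) a ⟨0, Finset.mem_range.2 hk⟩
    set y := lam + ∑ i ∈ (Finset.range k).erase i0, a i with hy
    have hy0 : 0 ≤ y := add_nonneg hl (Finset.sum_nonneg fun i _ => ha i)
    have hsum : lam + ∑ i ∈ Finset.range k, a i = a i0 + y := by
      rw [hy, ← Finset.add_sum_erase _ _ hi0]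
      ring
    have h3 := h2 (a i0) y (ha i0) hy0
    have h4 := pm (2 * r) k lam a (by omega) hl ((Finset.range k).erase i0)
      ((Finset.card_le_card (Finset.erase_subset _ _)).trans (by simp)) (fun i _ => ha i)
    rw [← hy] at h4
    have h5 : ∑ i ∈ (Finset.range k).erase i0, a i ^ (2 * r) ≤
        ∑ i ∈ Finset.range k, ∑ j ∈ (Finset.range k).erase i, a i ^ r * a j ^ r := by
      calc ∑ i ∈ (Finset.range k).erase i0, a i ^ (2 * r)
          ≤ ∑ j ∈ (Finset.range k).erase i0, a i0 ^ r * a j ^ r := by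
            refine Finset.sum_le_sum fun j hj => ?_
            have h6 := hmax j (Finset.mem_of_mem_erase hj)
            rw [two_mul, pow_add]
            have h7 : a j ^ r ≤ a i0 ^ r := pow_le_pow_left₀ (ha j) h6 r
            exact mul_le_mul_of_nonneg_right h7 (pow_nonneg (ha j) _)
        _ ≤ _ := Finset.single_le_sum
            (f := fun i => ∑ j ∈ (Finset.range k).erase i, a i ^ r * a j ^ r)
            (fun i _ => Finset.sum_nonneg fun j _ =>
              mul_nonneg (pow_nonneg (ha i) _) (pow_nonneg (ha j) _)) hi0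
    have h8 : y ^ (2 * r) ≤ ((k : ℝ) + 1) ^ (2 * r - 1) * (lam ^ (2 * r) +
        ∑ i ∈ Finset.range k, ∑ j ∈ (Finset.range k).erase i, a i ^ r * a j ^ r) :=
      h4.trans (mul_le_mul_of_nonneg_left (by linarith) (by positivity))
    rw [hsum, div_eq_mul_inv, mul_pow]
    have hDi : 0 ≤ ((1 + γ * ∑ i ∈ Finset.range k, w i)⁻¹) ^ (2 * r) := by positivity
    have hDi1 : ((1 + γ * ∑ i ∈ Finset.range k, w i)⁻¹) ^ (2 * r) ≤ 1 :=
      pow_le_one₀ (by positivity) (inv_le_one_of_one_le₀ hD)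
    have h9 : ∑ j ∈ (Finset.range k).erase i0, w j ≤ ∑ j ∈ Finset.range k, w j :=
      Finset.sum_le_sum_of_subset_of_nonneg (Finset.erase_subset _ _) fun j _ _ => hw j
    have h10 : 0 ≤ ∑ j ∈ (Finset.range k).erase i0, w j := Finset.sum_nonneg fun i _ => hw i
    have h11 : 0 < 1 + γ * ∑ j ∈ (Finset.range k).erase i0, w j := by positivity
    have h12 : (1 + γ * ∑ i ∈ Finset.range k, w i)⁻¹ ≤
        (1 + γ * ∑ j ∈ (Finset.range k).erase i0, w j)⁻¹ := by
      apply inv_anti₀ h11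
      gcongr
    have h13 := pow_le_pow_left₀ (by positivity) h12 (2 * r)
    have h14 : a i0 ^ (2 * r) * ((1 + γ * ∑ i ∈ Finset.range k, w i)⁻¹) ^ (2 * r) ≤
        ∑ i ∈ Finset.range k, a i ^ (2 * r) *
        ((1 + γ * ∑ j ∈ (Finset.range k).erase i, w j)⁻¹) ^ (2 * r) := by
      refine le_trans ?_ (Finset.single_le_sum (fun i _ => hterm i) hi0)
      exact mul_le_mul_of_nonneg_left h13 (pow_nonneg (ha i0) _)
    set V := ((1 + γ * ∑ i ∈ Finset.range k, w i)⁻¹) ^ (2 * r) with hV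
    set Q := lam ^ (2 * r) +
        ∑ i ∈ Finset.range k, ∑ j ∈ (Finset.range k).erase i, a i ^ r * a j ^ r with hQ
    have hQ0 : 0 ≤ Q := add_nonneg (by positivity) hdbl
    have hyp : 0 ≤ y ^ (2 * r) := by positivity
    calc (a i0 + y) ^ (2 * r) * V ≤ ((1 + δ) * a i0 ^ (2 * r) + C1 * y ^ (2 * r)) * V := by
          gcongr
      _ = (1 + δ) * (a i0 ^ (2 * r) * V) + C1 * y ^ (2 * r) * V := by ring
      _ ≤ (1 + δ) * (∑ i ∈ Finset.range k, a i ^ (2 * r) *
        ((1 + γ * ∑ j ∈ (Finset.range k).erase i, w j)⁻¹) ^ (2 * r)) +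
          C1 * y ^ (2 * r) * 1 := by gcongr
      _ ≤ (1 + δ) * (∑ i ∈ Finset.range k, a i ^ (2 * r) *
        ((1 + γ * ∑ j ∈ (Finset.range k).erase i, w j)⁻¹) ^ (2 * r)) +
          (C1 * ((k : ℝ) + 1) ^ (2 * r - 1) + 1) * Q := by
        have : C1 * y ^ (2 * r) ≤ C1 * (((k : ℝ) + 1) ^ (2 * r - 1) * Q) := by gcongr
        nlinarith
      _ = _ := by rfl

end FrogGW.W578
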